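import Mathlib

set_option autoImplicit false

/-!
# The norm-degree bound for `G_r` fails for curves of genus `g ≥ 2` and a skew polarization

`X` is a smooth projective curve of genus `g ≥ 2` (over the algebraic closure of a finite field). The
numerical geometry of the surface `X × X` is recorded in the structure `CurveSquare`: the real vector
space `N` of divisors modulo numerical equivalence with the intersection form, the irreducible curves
and their classes, the fibres `{x} × X`, `X × {x}` and the diagonal `Δ`, with their intersection numbers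
(`Δ² = 2 - 2g`), the fact that different irreducible curves do not meet negatively, and the fact that
`{x} × X + X × {x}` is positive on all curves.

The divisor `H = {x} × X + (20 g - 19) X × {x} + 10 Δ` is ample (Nakai-Moishezon), and
`deg (G_2 ∘ Δ) = G_2 · H = 35 - 20 g < 0`. So no constant `C` as in the question exists for `(X, H)`. More
generally for every rational `r ≠ 1` with `1 / (2 g - 1) < r < 2 g - 1` there is an ample divisor with
`deg G_r < 0`; so `G_r` is not numerically equivalent to an effective cycle.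
-/

namespace Pool.Agent.Results.MP_77d3c1_ag.SkewPolarization

/-- The numerical data of the surface `X × X`, `X` a smooth projective curve of genus `g`. -/
structure CurveSquare (g : ℕ) (N Curve : Type*) [AddCommGroup N] [Module ℝ N] where
  /-- the numerical class of an irreducible curve on `X × X` -/
  cls : Curve → N
  /-- the intersection form -/
  inter : N →ₗ[ℝ] N →ₗ[ℝ] ℝ
  symm : ∀ D E, inter D E = inter E D
  /-- different irreducible curves have nonnegative intersection number -/
  nonneg : ∀ C D, C ≠ D → 0 ≤ inter (cls C) (cls D)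
  /-- the fibre `{x} × X` -/
  fst : Curve
  /-- the fibre `X × {x}` -/
  snd : Curve
  /-- the diagonal `Δ` -/
  diag : Curve
  fst_fst : inter (cls fst) (cls fst) = 0
  snd_snd : inter (cls snd) (cls snd) = 0
  fst_snd : inter (cls fst) (cls snd) = 1
  fst_diag : inter (cls fst) (cls diag) = 1
  snd_diag : inter (cls snd) (cls diag) = 1
  diag_diag : inter (cls diag) (cls diag) = 2 - 2 * g
  /-- `{x} × X + X × {x}` is positive on every curve -/
  product_pos : ∀ C, 0 < inter (cls fst + cls snd) (cls C)

variable {g : ℕ} {N Curve : Type*} [AddCommGroup N] [Module ℝ N]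

namespace CurveSquare

variable (S : CurveSquare g N Curve)

/-- `D` is ample (Nakai-Moishezon criterion). -/
def IsAmple (D : N) : Prop := 0 < S.inter D D ∧ ∀ C, 0 < S.inter D (S.cls C)

/-- The class of the effective cycle `∑ m_C C`. -/
noncomputable def cycle (f : Curve →₀ ℕ) : N := f.sum fun C m => (m : ℝ) • S.cls C

/-- A dynamical correspondence: a nonzero effective cycle each component of which has surjective
projections to both factors, that is, meets the fibres `{x} × X` and `X × {x}` in a positive number of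
points. -/
def IsDynamical (f : Curve →₀ ℕ) : Prop :=
  f ≠ 0 ∧ ∀ C ∈ f.support, 0 < S.inter (S.cls C) (S.cls S.fst) ∧ 0 < S.inter (S.cls C) (S.cls S.snd)

/-- The class of `G_r ∘ f` for a class `D` of correspondences: `D` is the sum of its components
`(D · (X × {x})) {x} × X` (which acts on `H^0`), `(D · ({x} × X)) X × {x}` (which acts on `H^2`) and the rest,
orthogonal to both fibres, which acts on `H^1`; these are multiplied by `r^0`, `r^2` and `r`. -/
noncomputable def G (r : ℝ) (D : N) : N :=
  S.inter D (S.cls S.snd) • S.cls S.fst +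
    r • (D - S.inter D (S.cls S.snd) • S.cls S.fst - S.inter D (S.cls S.fst) • S.cls S.snd) +
    (r ^ 2 * S.inter D (S.cls S.fst)) • S.cls S.snd

theorem G_diag (r : ℝ) : S.G r (S.cls S.diag) = S.cls S.fst +
    r • (S.cls S.diag - S.cls S.fst - S.cls S.snd) + r ^ 2 • S.cls S.snd := by
  unfold G
  rw [S.symm (S.cls S.diag) (S.cls S.snd), S.symm (S.cls S.diag) (S.cls S.fst), S.snd_diag,
    S.fst_diag, one_smul, one_smul, mul_one]

/-- The divisor `a {x} × X + b X × {x} + c Δ`. -/
def H (a b c : ℝ) : N := a • S.cls S.fst + b • S.cls S.snd + c • S.cls S.diag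

theorem inter_H_cls (a b c : ℝ) (D : N) : S.inter (S.H a b c) D =
    a * S.inter (S.cls S.fst) D + b * S.inter (S.cls S.snd) D + c * S.inter (S.cls S.diag) D := by
  simp only [H, map_add, map_smul, LinearMap.add_apply, LinearMap.smul_apply, smul_eq_mul]

theorem fst_ne_diag : S.fst ≠ S.diag := fun h => by
  have h1 := S.fst_diag
  rw [← h, S.fst_fst] at h1
  exact zero_ne_one h1

theorem snd_ne_diag : S.snd ≠ S.diag := fun h => by
  have h1 := S.snd_diag
  rw [← h, S.snd_snd] at h1
  exact zero_ne_one h1

theorem fst_nonneg (C : Curve) : 0 ≤ S.inter (S.cls S.fst) (S.cls C) := by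
  by_cases h : S.fst = C
  · rw [← h, S.fst_fst]
  · exact S.nonneg _ _ h

theorem snd_nonneg (C : Curve) : 0 ≤ S.inter (S.cls S.snd) (S.cls C) := by
  by_cases h : S.snd = C
  · rw [← h, S.snd_snd]
  · exact S.nonneg _ _ h

/-- `H a b c` is ample if `a, b, c > 0` and `(2 g - 2) c < a + b`. -/
theorem isAmple_H {a b c : ℝ} (ha : 0 < a) (hb : 0 < b) (hc : 0 < c)
    (h : (2 * g - 2) * c < a + b) : S.IsAmple (S.H a b c) := by
  have hdiag : S.inter (S.H a b c) (S.cls S.diag) = a + b - (2 * g - 2) * c := by
    rw [inter_H_cls, S.fst_diag, S.snd_diag, S.diag_diag]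
    ring
  have hfst : S.inter (S.H a b c) (S.cls S.fst) = b + c := by
    rw [inter_H_cls, S.fst_fst, S.symm (S.cls S.snd), S.fst_snd, S.symm (S.cls S.diag), S.fst_diag]
    ring
  have hsnd : S.inter (S.H a b c) (S.cls S.snd) = a + c := by
    rw [inter_H_cls, S.fst_snd, S.snd_snd, S.symm (S.cls S.diag), S.snd_diag]
    ring
  refine ⟨?_, fun C => ?_⟩
  · have h1 : S.inter (S.H a b c) (S.H a b c) =
        a * (b + c) + b * (a + c) + c * (a + b - (2 * g - 2) * c) := by
      rw [S.inter_H_cls a b c (S.H a b c), S.symm (S.cls S.fst), S.symm (S.cls S.snd),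
        S.symm (S.cls S.diag), hfst, hsnd, hdiag]
    rw [h1]
    have : 0 < a + b - (2 * g - 2) * c := by linarith
    positivity
  · by_cases hC : S.diag = C
    · rw [← hC, hdiag]
      linarith
    · rw [inter_H_cls]
      have h1 := S.fst_nonneg C
      have h2 := S.snd_nonneg C
      have h3 := S.nonneg _ _ hC
      have h4 := S.product_pos C
      rw [map_add, LinearMap.add_apply] at h4
      have h5 : 0 < a * S.inter (S.cls S.fst) (S.cls C) + b * S.inter (S.cls S.snd) (S.cls C) := by
        rcases h1.eq_or_lt with h6 | h6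
        · have : 0 < S.inter (S.cls S.snd) (S.cls C) := by linarith
          have := mul_pos hb this
          have := mul_nonneg ha.le h1
          linarith
        · have := mul_pos ha h6
          have := mul_nonneg hb.le h2
          linarith
      have := mul_nonneg hc.le h3
      linarith

/-- The degree of `G_r = G_r ∘ Δ` with respect to `H a b c`. -/
theorem deg_G (a b c r : ℝ) : S.inter (S.H a b c) (S.G r (S.cls S.diag)) =
    (b + c) - r * (2 * g * c) + r ^ 2 * (a + c) := by
  have hdiag : S.inter (S.H a b c) (S.cls S.diag) = a + b - (2 * g - 2) * c := by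
    rw [inter_H_cls, S.fst_diag, S.snd_diag, S.diag_diag]
    ring
  have hfst : S.inter (S.H a b c) (S.cls S.fst) = b + c := by
    rw [inter_H_cls, S.fst_fst, S.symm (S.cls S.snd), S.fst_snd, S.symm (S.cls S.diag), S.fst_diag]
    ring
  have hsnd : S.inter (S.H a b c) (S.cls S.snd) = a + c := by
    rw [inter_H_cls, S.fst_snd, S.snd_snd, S.symm (S.cls S.diag), S.snd_diag]
    ring
  rw [G_diag, map_add, map_add, map_smul, map_smul, map_sub, map_sub, hdiag, hfst, hsnd,
    smul_eq_mul, smul_eq_mul]
  ring

theorem isDynamical_diag : S.IsDynamical (Finsupp.single S.diag 1) := by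
  classical
  refine ⟨by simp, fun C hC => ?_⟩
  have : C = S.diag := by
    by_contra h
    rw [Finsupp.mem_support_iff, Finsupp.single_apply, if_neg (fun h' => h h'.symm)] at hC
    exact hC rfl
  subst this
  rw [S.symm _ (S.cls S.fst), S.symm _ (S.cls S.snd), S.fst_diag, S.snd_diag]
  exact ⟨one_pos, one_pos⟩

theorem cycle_diag : S.cycle (Finsupp.single S.diag 1) = S.cls S.diag := by
  rw [cycle, Finsupp.sum_single_index] <;> simp

end CurveSquare

/-- Let `X` be a smooth projective curve of genus `g ≥ 2`, given by the numerical data `S` of `X × X`.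

* Let `H` be the divisor `{x} × X + (20 g - 19) X × {x} + 10 Δ`. Then `H` is ample, and for every norm on
  the space of numerical classes and every constant `C` there are a rational `r > 0` and a dynamical
  correspondence `f` with `‖G_r ∘ f‖ > C deg (G_r ∘ f)`, the degree taken with respect to `H`. In fact
  `r = 2` and `f = Δ` work for all `C > 0`, with `deg (G_2 ∘ Δ) < 0`.
* For every real `r ≠ 1` with `1 / (2 g - 1) < r < 2 g - 1` there is an ample divisor with respect to which
  `G_r` has negative degree; so `G_r` is not the class of an effective cycle. -/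
theorem result {g : ℕ} (hg : 2 ≤ g) {N Curve : Type*} [AddCommGroup N] [Module ℝ N]
    (S : CurveSquare g N Curve) :
    (∃ H : N, H = S.H 1 (20 * g - 19) 10 ∧ S.IsAmple H ∧
      ∀ nrm : Seminorm ℝ N, (∀ D, nrm D = 0 → D = 0) → ∀ C : ℝ, 0 < C →
        ∃ r : ℚ, 0 < r ∧ ∃ f : Curve →₀ ℕ, S.IsDynamical f ∧
          S.inter H (S.G r (S.cycle f)) < 0 ∧
          C * S.inter H (S.G r (S.cycle f)) < nrm (S.G r (S.cycle f))) ∧
    ∀ r : ℝ, r ≠ 1 → 1 / (2 * g - 1) < r → r < 2 * g - 1 →
      (∃ H : N, S.IsAmple H ∧ S.inter H (S.G r (S.cls S.diag)) < 0) ∧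
      ∀ f : Curve →₀ ℕ, S.cycle f ≠ S.G r (S.cls S.diag) := by
  have hg' : (2 : ℝ) ≤ g := by exact_mod_cast hg
  have neg : ∀ r : ℝ, r ≠ 1 → 1 / (2 * g - 1) < r → r < 2 * g - 1 →
      ∃ H : N, S.IsAmple H ∧ S.inter H (S.G r (S.cls S.diag)) < 0 := by
    intro r hr1 hr2 hr3
    have h0 : (0 : ℝ) < 2 * g - 1 := by linarith
    have hr0 : 0 < r := lt_trans (by positivity) hr2
    rw [div_lt_iff₀ h0] at hr2
    rcases lt_or_gt_of_ne hr1 with h | h
    · -- `r < 1`: `a = 2 g - 2`, `b = 0`
      set ε : ℝ := (1 - r) * (r * (2 * g - 1) - 1) / (2 * (1 + r ^ 2)) with hε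
      have hpos : 0 < (1 - r) * (r * (2 * g - 1) - 1) :=
        mul_pos (by linarith) (by linarith)
      have hεpos : 0 < ε := by positivity
      refine ⟨S.H (2 * g - 2 + ε) ε 1, S.isAmple_H (by linarith) hεpos one_pos (by linarith), ?_⟩
      rw [S.deg_G]
      have h1 : ε * (2 * (1 + r ^ 2)) = (1 - r) * (r * (2 * g - 1) - 1) := by
        rw [hε]
        field_simp
      nlinarith
    · set ε : ℝ := (r - 1) * (2 * g - 1 - r) / (2 * (1 + r ^ 2)) with hε
      have hpos : 0 < (r - 1) * (2 * g - 1 - r) := mul_pos (by linarith) (by linarith)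
      have hεpos : 0 < ε := by positivity
      refine ⟨S.H ε (2 * g - 2 + ε) 1, S.isAmple_H hεpos (by linarith) one_pos (by linarith), ?_⟩
      rw [S.deg_G]
      have h1 : ε * (2 * (1 + r ^ 2)) = (r - 1) * (2 * g - 1 - r) := by
        rw [hε]
        field_simp
      nlinarith
  refine ⟨⟨_, rfl, S.isAmple_H one_pos (by linarith) (by norm_num) (by linarith), ?_⟩, ?_⟩
  · intro nrm _ C hC
    refine ⟨2, by norm_num, Finsupp.single S.diag 1, S.isDynamical_diag, ?_⟩
    have h1 : S.inter (S.H 1 (20 * g - 19) 10) (S.G ((2 : ℚ) : ℝ)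
        (S.cycle (Finsupp.single S.diag 1))) < 0 := by
      rw [S.cycle_diag, S.deg_G]
      push_cast
      linarith
    exact ⟨h1, lt_of_lt_of_le (mul_neg_of_pos_of_neg hC h1) (apply_nonneg nrm _)⟩
  · intro r hr1 hr2 hr3
    refine ⟨neg r hr1 hr2 hr3, fun f hf => ?_⟩
    obtain ⟨H, hH, hneg⟩ := neg r hr1 hr2 hr3
    rw [← hf] at hneg
    have : 0 ≤ S.inter H (S.cycle f) := by
      rw [CurveSquare.cycle, Finsupp.sum, map_sum]
      refine Finset.sum_nonneg fun C _ => ?_
      rw [map_smul, smul_eq_mul]
      exact mul_nonneg (Nat.cast_nonneg _) (hH.2 C).le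
    exact absurd hneg (not_lt.2 this)

end Pool.Agent.Results.MP_77d3c1_ag.SkewPolarization
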